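import Mathlib

set_option autoImplicit false

namespace Pool.Agent.Results.MP_4cef1b_gt.Square

open Set Filter Cardinal

/-- some sigma-discrete subset is dense -/
def LowerDSeparable (X : Type) [TopologicalSpace X] : Prop :=
  ∃ F : ℕ → Set X, (∀ n, DiscreteTopology (F n)) ∧ Dense (⋃ n, F n)

/-- D-separability -/
def DSeparable (X : Type) [TopologicalSpace X] : Prop :=
  ∀ D : ℕ → Set X, (∀ n, Dense (D n)) →
    ∃ F : ℕ → Set X, (∀ n, F n ⊆ D n ∧ DiscreteTopology (F n)) ∧ Dense (⋃ n, F n)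

abbrev Lab : Type := ℝ × Bool
abbrev Col : Type := Set Lab
abbrev LL : Type := ℕ → Col

def KK : Type := (Order.succ #LL).ord.ToType

noncomputable instance : LinearOrder KK :=
  inferInstanceAs (LinearOrder (Order.succ #LL).ord.ToType)
instance : WellFoundedLT KK :=
  inferInstanceAs (WellFoundedLT (Order.succ #LL).ord.ToType)

lemma inf_LL : ℵ₀ ≤ #LL := Cardinal.aleph0_le_mk LL

lemma card_KK : #KK = Order.succ #LL := by
  unfold KK; simp only [Cardinal.mk_toType, Cardinal.card_ord]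

lemma bddK (S : Set KK) (h : #S ≤ #LL) : ∃ b, ∀ s ∈ S, s < b := by
  rw [← not_isCofinal_iff]
  intro hS
  have h1 := Order.cof_le hS
  have h2 : Order.cof KK = Order.succ #LL := by
    have := Ordinal.cof_toType (Order.succ #LL).ord
    rw [(Cardinal.isRegular_succ inf_LL).cof_ord] at this
    exact this
  rw [h2] at h1
  exact absurd (h1.trans h) (not_le.mpr (Order.lt_succ _))

lemma bddF {J : Type} (hJ : #J ≤ #LL) (g : J → KK) : ∃ b, ∀ j, g j < b := by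
  obtain ⟨b, hb⟩ := bddK (range g) (Cardinal.mk_range_le.trans hJ)
  exact ⟨b, fun i => hb _ ⟨i, rfl⟩⟩

lemma iio_gen (c : Cardinal.{0}) (i : c.ord.ToType) : #(Iio i) < c := by
  simpa using Cardinal.mk_Iio_lt i

lemma card_Iio (y : KK) : #(Iio y) ≤ #LL :=
  Order.lt_succ_iff.mp (iio_gen _ y)

lemma gtK (a : KK) : ∃ b, a < b := by
  obtain ⟨b, hb⟩ := bddF (J := Unit) (by simpa using Cardinal.one_le_aleph0.trans inf_LL) (fun _ => a)
  exact ⟨b, hb ()⟩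

instance : Nonempty KK := by
  obtain ⟨i, _⟩ := bddK ∅ (by simp)
  exact ⟨i⟩

/-- `δ` has cofinality omega and is closed under `g` -/
def Cl (g : KK → KK) (δ : KK) : Prop :=
  (∃ a : ℕ → KK, (∀ n, a n < δ) ∧ ∀ γ < δ, ∃ n, γ < a n) ∧ ∀ γ < δ, g γ < δ

lemma exists_sup (a : ℕ → KK) : ∃ δ, (∀ n, a n < δ) ∧ ∀ γ < δ, ∃ n, γ ≤ a n := by
  obtain ⟨b, hb⟩ := bddF (J := ℕ) (by simpa using inf_LL) a
  let S : Set KK := {b | ∀ i, a i < b}
  have hS : S.Nonempty := ⟨b, hb⟩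
  refine ⟨wellFounded_lt.min S hS, wellFounded_lt.min_mem S hS, fun γ hγ => ?_⟩
  by_contra hc
  push Not at hc
  exact wellFounded_lt.not_lt_min S hc hγ

lemma exists_cl (g : KK → KK) (α : KK) : ∃ δ, α < δ ∧ Cl g δ := by
  have h : ∀ a : KK, ∃ b, a < b ∧ g a < b ∧ ∀ γ < a, g γ < b := by
    intro a
    obtain ⟨b, hb⟩ := bddF (card_Iio a) (fun γ => g γ.1)
    obtain ⟨c, hc⟩ := gtK (max a (max (g a) b))
    simp only [max_lt_iff] at hc
    exact ⟨c, hc.1, hc.2.1, fun γ hγ => (hb ⟨γ, hγ⟩).trans hc.2.2⟩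
  choose G h1 h2 h3 using h
  obtain ⟨δ, hδ, hδ2⟩ := exists_sup (fun n => G^[n] α)
  refine ⟨δ, hδ 0, ⟨fun n => G^[n] α, hδ, fun γ hγ => ?_⟩, fun γ hγ => ?_⟩
  · obtain ⟨n, hn⟩ := hδ2 γ hγ
    refine ⟨n + 1, hn.trans_lt ?_⟩
    simp only [Function.iterate_succ_apply']
    exact h1 _
  · obtain ⟨n, hn⟩ := hδ2 γ hγ
    refine lt_trans ?_ (hδ (n + 1))
    simp only [Function.iterate_succ_apply']
    rcases eq_or_lt_of_le hn with h | h
    · rw [h]; exact h2 _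
    · exact h3 _ _ h

lemma exists_ok : ∃ Ok : KK → Col → Prop, (∀ δ c c', Ok δ c → Ok δ c' → c = c') ∧
    ∀ c g, ∃ δ, Ok δ c ∧ Cl g δ := by
  classical
  have he : ∀ δ : KK, ∃ e : KK → LL, InjOn e (Iio δ) := by
    intro y
    obtain ⟨e⟩ := (Cardinal.le_def _ _).mp (card_Iio y)
    refine ⟨fun z => if hz : z < y then e ⟨z, hz⟩ else Classical.arbitrary LL, ?_⟩
    intro a ha b hb hab
    have ha' : a < y := ha
    have hb' : b < y := hb
    simp only [ha', hb', dif_pos] at hab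
    exact congrArg Subtype.val (e.injective hab)
  choose e he using he
  have h1 : ∀ α : KK, ∃ ξ : LL, ∀ g, ∃ δ, α < δ ∧ e δ α = ξ ∧ Cl g δ := by
    intro α
    by_contra hc
    push Not at hc
    choose g hg using hc
    have : ∀ γ, ∃ b, ∀ ξ, g ξ γ < b := fun γ => bddF le_rfl (fun ξ => g ξ γ)
    choose G hG using this
    obtain ⟨δ, h1, h2⟩ := exists_cl G α
    exact hg (e δ α) δ h1 rfl ⟨h2.1, fun γ hγ => (hG γ _).trans (h2.2 γ hγ)⟩
  choose ξ hξ using h1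
  obtain ⟨ξ0, h0⟩ := Cardinal.infinite_pigeonhole_card_lt ξ (by rw [card_KK]; exact Order.lt_succ _)
    (by rw [card_KK]; exact inf_LL.trans (Order.le_succ _))
  have hc : #Col ≤ #LL := Cardinal.mk_le_of_injective (f := fun c (_ : ℕ) => c)
    (fun a b h => congrFun h 0)
  obtain ⟨ι⟩ := (Cardinal.le_def _ _).mp (hc.trans h0.le)
  refine ⟨fun δ c => (ι c).1 < δ ∧ e δ (ι c).1 = ξ0, ?_, ?_⟩
  · intro δ c c' h h'
    exact ι.injective (Subtype.ext (he δ h.1 h'.1 (h.2.trans h'.2.symm)))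
  · intro c g
    obtain ⟨δ, h1, h2, h3⟩ := hξ (ι c).1 g
    exact ⟨δ, ⟨h1, h2.trans (ι c).2⟩, h3⟩

noncomputable def Ok : KK → Col → Prop := exists_ok.choose

lemma ok_uniq (δ : KK) (c c' : Col) : Ok δ c → Ok δ c' → c = c' := exists_ok.choose_spec.1 δ c c'

lemma ok_big (c : Col) (g : KK → KK) : ∃ δ, Ok δ c ∧ Cl g δ := exists_ok.choose_spec.2 c g

def Lim (G : Set (KK × Lab)) (δ : KK) : Prop :=
  (∃ p ∈ G, p.1 < δ) ∧ ∀ γ < δ, ∃ p ∈ G, γ < p.1 ∧ p.1 < δ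

def colB (G : Set (KK × Lab)) (δ : KK) : Col := Prod.snd '' {p | p ∈ G ∧ p.1 < δ}

structure TT where
  m : KK
  G : Set (KK × Lab)
  top : ∃ l, (m, l) ∈ G
  bd : ∀ p ∈ G, p.1 ≤ m
  cnt : G.Countable
  cons : ∀ p ∈ G, ∀ q ∈ G, p.2.1 = q.2.1 → p.2 = q.2
  rule : ∀ δ ≤ m, Lim G δ → Ok δ (colB G δ)

instance : PartialOrder TT where
  le p q := p.m ≤ q.m ∧ ∀ x, x ∈ p.G ↔ (x ∈ q.G ∧ x.1 ≤ p.m)
  le_refl p := ⟨le_rfl, fun x => ⟨fun h => ⟨h, p.bd x h⟩, fun h => h.1⟩⟩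
  le_trans p q r h1 h2 := ⟨h1.1.trans h2.1, fun x => by
    rw [h1.2, h2.2]
    exact ⟨fun h => ⟨h.1.1, h.2⟩, fun h => ⟨⟨h.1, h.2.trans h1.1⟩, h.2⟩⟩⟩
  le_antisymm p q h1 h2 := by
    have e1 : p.m = q.m := le_antisymm h1.1 h2.1
    have e2 : p.G = q.G := Set.ext fun x => ⟨fun h => ((h1.2 x).mp h).1, fun h => ((h2.2 x).mp h).1⟩
    cases p; cases q
    simp only at e1 e2
    subst e1 e2
    rfl

lemma le_def (p q : TT) : p ≤ q ↔ p.m ≤ q.m ∧ ∀ x, x ∈ p.G ↔ (x ∈ q.G ∧ x.1 ≤ p.m) := Iff.rfl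

lemma sub_of_le {p q : TT} (h : p ≤ q) : p.G ⊆ q.G := fun x hx => ((h.2 x).mp hx).1

lemma tree {a b c : TT} (h1 : a ≤ c) (h2 : b ≤ c) (h : a.m ≤ b.m) : a ≤ b :=
  ⟨h, fun x => by
    rw [h1.2, h2.2]
    exact ⟨fun k => ⟨⟨k.1, k.2.trans h⟩, k.2⟩, fun k => ⟨k.1.1, k.2⟩⟩⟩

def col (t : TT) : Col := Prod.snd '' t.G

lemma lim_congr {G G' : Set (KK × Lab)} {δ : KK} (h : ∀ p : KK × Lab, p.1 < δ → (p ∈ G ↔ p ∈ G')) :
    (Lim G δ → Lim G' δ) ∧ colB G δ = colB G' δ := by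
  refine ⟨fun ⟨⟨p, hp, h1⟩, h2⟩ => ⟨⟨p, (h p h1).mp hp, h1⟩, fun γ hγ => ?_⟩, ?_⟩
  · obtain ⟨q, hq, h3, h4⟩ := h2 γ hγ
    exact ⟨q, (h q h4).mp hq, h3, h4⟩
  · unfold colB
    congr 1
    ext p
    exact ⟨fun k => ⟨(h p k.2).mp k.1, k.2⟩, fun k => ⟨(h p k.2).mpr k.1, k.2⟩⟩

lemma exists_ext (t : TT) (c : KK) (l : Lab) (h : t.m < c)
    (hl : ∀ p ∈ t.G, p.2.1 = l.1 → p.2 = l) :
    ∃ s, t ≤ s ∧ s.m = c ∧ l ∈ col s ∧ ∀ u ≤ s, u ≤ t ∨ u.m = c := by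
  have key : ∀ δ ≤ c, ∀ p : KK × Lab, p.1 < δ → (p ∈ insert (c, l) t.G ↔ p ∈ t.G) := by
    intro δ hδ p hp
    refine ⟨fun k => k.resolve_left ?_, fun k => Or.inr k⟩
    rintro rfl
    exact absurd (hp.trans_le hδ) (lt_irrefl _)
  let s : TT := ⟨c, insert (c, l) t.G, ⟨l, Or.inl rfl⟩, ?_, t.cnt.insert _, ?_, ?_⟩
  · have hts : t ≤ s := by
      refine ⟨h.le, fun x => ⟨fun k => ⟨Or.inr k, t.bd x k⟩, fun k => k.1.resolve_left ?_⟩⟩
      rintro rfl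
      exact absurd k.2 (not_le.mpr h)
    refine ⟨s, hts, rfl, ⟨(c, l), Or.inl rfl, rfl⟩, fun u hu => ?_⟩
    rcases eq_or_lt_of_le hu.1 with k | k
    · exact Or.inr k
    · obtain ⟨l', hl'⟩ := u.top
      have : (u.m, l') ∈ t.G := (key c le_rfl _ k).mp (sub_of_le hu hl')
      exact Or.inl (tree hu hts (t.bd _ this))
  · rintro p (rfl | hp)
    · exact le_rfl
    · exact (t.bd p hp).trans h.le
  · rintro p (rfl | hp) q (rfl | hq) e
    · rfl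
    · exact (hl q hq e.symm).symm
    · exact hl p hp e
    · exact t.cons p hp q hq e
  · intro δ hδ hL
    have h1 := lim_congr (key δ hδ)
    rw [h1.2]
    refine t.rule δ ?_ (h1.1 hL)
    by_contra hc
    obtain ⟨p, hp, h2, _⟩ := (h1.1 hL).2 t.m (not_le.mp hc)
    exact absurd (t.bd p hp) (not_le.mpr h2)

lemma exists_ext' (t : TT) (c : KK) (h : t.m < c) :
    ∃ s, t ≤ s ∧ s.m = c ∧ ∀ u ≤ s, u ≤ t ∨ u.m = c := by
  obtain ⟨l, hl⟩ := t.top
  obtain ⟨s, h1, h2, _, h3⟩ := exists_ext t c l h (fun p hp e => t.cons p hp _ hl e)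
  exact ⟨s, h1, h2, h3⟩

def Inc (s s' : TT) : Prop := ∃ r : ℝ, (r, true) ∈ col s ∧ (r, false) ∈ col s'

lemma exists_inc (t t' : TT) : ∃ s s', t ≤ s ∧ t' ≤ s' ∧ Inc s s' := by
  have hc : ((fun p : KK × Lab => p.2.1) '' (t.G ∪ t'.G)).Countable := (t.cnt.union t'.cnt).image _
  obtain ⟨r, hr⟩ : ∃ r : ℝ, r ∉ (fun p : KK × Lab => p.2.1) '' (t.G ∪ t'.G) := by
    by_contra h
    push Not at h
    exact Cardinal.not_countable_real (hc.mono fun r _ => h r)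
  obtain ⟨c, h⟩ := gtK t.m
  obtain ⟨c', h'⟩ := gtK t'.m
  obtain ⟨s, h1, _, h2, _⟩ := exists_ext t c (r, true) h
    (fun p hp e => absurd ⟨p, Or.inl hp, e⟩ hr)
  obtain ⟨s', h3, _, h4, _⟩ := exists_ext t' c' (r, false) h'
    (fun p hp e => absurd ⟨p, Or.inr hp, e⟩ hr)
  exact ⟨s, s', h1, h3, r, h2, h4⟩

lemma no_alt (u u' : ℕ → TT) (s s' : TT) (h : ∀ n, u n ≤ s) (h' : ∀ n, u' n ≤ s')
    (k : ∀ n, (u' n).m < (u (n + 1)).m) (k' : ∀ n, (u n).m < (u' (n + 1)).m)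
    (hi : Inc (u 0) (u' 0)) : False := by
  obtain ⟨δ, h1, h2⟩ := exists_sup (fun n => (u n).m)
  have a1 : δ ≤ s.m := by
    by_contra hc
    obtain ⟨n, hn⟩ := h2 _ (not_le.mp hc)
    exact absurd (((k' n).trans (k (n + 1))).trans_le ((h _).1.trans hn)) (lt_irrefl _)
  have a2 : δ ≤ s'.m := by
    by_contra hc
    obtain ⟨n, hn⟩ := h2 _ (not_le.mp hc)
    exact absurd ((k' n).trans_le ((h' _).1.trans hn)) (lt_irrefl _)
  have b1 : Lim s.G δ := by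
    constructor
    · obtain ⟨l, hl⟩ := (u 0).top
      exact ⟨_, sub_of_le (h 0) hl, h1 0⟩
    · intro γ hγ
      obtain ⟨n, hn⟩ := h2 γ hγ
      obtain ⟨l, hl⟩ := (u (n + 1 + 1)).top
      exact ⟨_, sub_of_le (h _) hl, hn.trans_lt ((k' n).trans (k (n + 1))), h1 _⟩
  have b2 : Lim s'.G δ := by
    constructor
    · obtain ⟨l, hl⟩ := (u' 0).top
      exact ⟨_, sub_of_le (h' 0) hl, (k 0).trans (h1 _)⟩
    · intro γ hγ
      obtain ⟨n, hn⟩ := h2 γ hγ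
      obtain ⟨l, hl⟩ := (u' (n + 1)).top
      exact ⟨_, sub_of_le (h' _) hl, hn.trans_lt (k' n), (k (n + 1)).trans (h1 _)⟩
  have e := ok_uniq δ _ _ (s.rule δ a1 b1) (s'.rule δ a2 b2)
  obtain ⟨r, ⟨p, hp, e1⟩, ⟨q, hq, e2⟩⟩ := hi
  have : (r, false) ∈ colB s.G δ := by
    rw [e]
    exact ⟨q, ⟨sub_of_le (h' 0) hq, ((u' 0).bd q hq).trans_lt ((k 0).trans (h1 _))⟩, e2⟩
  obtain ⟨q', hq', e3⟩ := this
  have := s.cons p (sub_of_le (h 0) hp) q' hq'.1 (by rw [e1, e3])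
  rw [e1, e3] at this
  simp at this

lemma exists_lim (t : ℕ → TT) (hm : Monotone t) (δ : KK) (h1 : ∀ n, (t n).m < δ)
    (h2 : ∀ γ < δ, ∃ n, γ < (t n).m) (hok : Ok δ (⋃ n, col (t n))) : ∃ s, ∀ n, t n ≤ s := by
  obtain ⟨l, hl⟩ := (t 0).top
  have key : ∀ n, ∀ x : KK × Lab, x.1 ≤ (t n).m →
      (x ∈ insert (δ, l) (⋃ n, (t n).G) ↔ x ∈ (t n).G) := by
    intro n x hx
    refine ⟨?_, fun k => Or.inr (mem_iUnion.mpr ⟨n, k⟩)⟩
    rintro (rfl | k)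
    · exact absurd hx (not_le.mpr (h1 n))
    · obtain ⟨j, hj⟩ := mem_iUnion.mp k
      rcases le_total j n with e | e
      · exact sub_of_le (hm e) hj
      · exact ((hm e).2 x).mpr ⟨hj, hx⟩
  have lab : ∀ p ∈ insert (δ, l) (⋃ n, (t n).G), ∃ n, ∃ q ∈ (t n).G, q.2 = p.2 := by
    rintro p (rfl | k)
    · exact ⟨0, _, hl, rfl⟩
    · obtain ⟨j, hj⟩ := mem_iUnion.mp k
      exact ⟨j, p, hj, rfl⟩
  refine ⟨⟨δ, insert (δ, l) (⋃ n, (t n).G), ⟨l, Or.inl rfl⟩, ?_,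
    (countable_iUnion fun n => (t n).cnt).insert _, ?_, ?_⟩, fun n => ⟨(h1 n).le, fun x => ?_⟩⟩
  · rintro p (rfl | k)
    · exact le_rfl
    · obtain ⟨j, hj⟩ := mem_iUnion.mp k
      exact (((t j).bd p hj).trans_lt (h1 j)).le
  · intro p hp q hq e
    obtain ⟨i, p', hp', e1⟩ := lab p hp
    obtain ⟨j, q', hq', e2⟩ := lab q hq
    rw [← e1, ← e2] at e ⊢
    exact (t (max i j)).cons _ (sub_of_le (hm (le_max_left i j)) hp') _
      (sub_of_le (hm (le_max_right i j)) hq') e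
  · intro δ' hδ' hL
    rcases eq_or_lt_of_le hδ' with rfl | hlt
    · convert hok using 1
      ext x
      constructor
      · rintro ⟨p, hp, rfl⟩
        obtain ⟨n, q, hq, e⟩ := lab p hp.1
        exact mem_iUnion.mpr ⟨n, q, hq, e⟩
      · intro hx
        obtain ⟨n, q, hq, e⟩ := mem_iUnion.mp hx
        exact ⟨q, ⟨Or.inr (mem_iUnion.mpr ⟨n, hq⟩), ((t n).bd q hq).trans_lt (h1 n)⟩, e⟩
    · obtain ⟨n, hn⟩ := h2 δ' hlt
      have := lim_congr (δ := δ') (fun p hp => key n p (hp.trans hn).le)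
      rw [this.2]
      exact (t n).rule δ' hn.le (this.1 hL)
  · exact ⟨fun k => ⟨(key n x ((t n).bd x k)).mpr k, (t n).bd x k⟩, fun k => (key n x k.2).mp k.1⟩

instance : Nonempty TT :=
  ⟨⟨Classical.arbitrary KK, {(Classical.arbitrary KK, (0, true))}, ⟨_, rfl⟩,
    by rintro p rfl; exact le_rfl, countable_singleton _,
    by rintro p rfl q rfl _; rfl,
    by rintro δ hδ ⟨⟨p, rfl, h⟩, _⟩; exact absurd h (not_lt.mpr hδ)⟩⟩

inductive Strat : Type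
  | leaf : Strat
  | node : KK → (TT → Strat) → Strat

def Wins (D : ℕ → Set TT) (c : LL) : Strat → ℕ → TT → Prop
  | .leaf, _, _ => False
  | .node β nx, n, s => ∀ s', s ≤ s' → s' ∈ D n → β < s'.m → col s' = c n →
      Wins D c (nx s') (n + 1) s'

noncomputable def Strat.b : Strat → KK
  | .leaf => Classical.arbitrary KK
  | .node β _ => β

def Strat.nx : Strat → TT → Strat
  | .leaf, _ => .leaf
  | .node _ f, s => f s

lemma exists_color (D : ℕ → Set TT) (hD : ∀ n t, ∃ s, t ≤ s ∧ s ∈ D n) (t : TT) :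
    ∃ c : LL, ∀ σ, ¬ Wins D c σ 0 t := by
  by_contra hc
  push Not at hc
  choose σ hσ using hc
  have h : ∀ (n : ℕ) (p : TT × (LL → Strat)), ∃ s', p.1 ≤ s' ∧ s' ∈ D n ∧
      ∀ c, (p.2 c).b < s'.m := by
    intro n p
    obtain ⟨b, hb⟩ := bddF le_rfl (fun c => (p.2 c).b)
    obtain ⟨e, he⟩ := gtK (max b p.1.m)
    obtain ⟨s, h1, h2, _⟩ := exists_ext' p.1 e ((le_max_right _ _).trans_lt he)
    obtain ⟨s', h3, h4⟩ := hD n s
    refine ⟨s', h1.trans h3, h4, fun c => (hb c).trans (lt_of_lt_of_le ?_ h3.1)⟩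
    rw [h2]
    exact (le_max_left _ _).trans_lt he
  choose mv h1 h2 h3 using h
  let st : ℕ → TT × (LL → Strat) := fun n =>
    Nat.rec (t, σ) (fun n p => (mv n p, fun c => (p.2 c).nx (mv n p))) n
  let c : LL := fun n => col (mv n (st n))
  have main : ∀ τ : Strat, ∀ n, (st n).2 c = τ → ¬ Wins D c τ n (st n).1 := by
    intro τ
    induction τ with
    | leaf => intro n _ h; exact h
    | node β f ih =>
      intro n e h
      have hb := h3 n (st n) c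
      rw [e] at hb
      refine ih (mv n (st n)) (n + 1) ?_ (h _ (h1 n _) (h2 n _) hb rfl)
      show ((st n).2 c).nx (mv n (st n)) = _
      rw [e]; rfl
  exact main _ 0 rfl (hσ c)

lemma baire (D : ℕ → Set TT) (hD : ∀ n t, ∃ s, t ≤ s ∧ s ∈ D n)
    (hU : ∀ n, ∀ s ∈ D n, ∀ s', s ≤ s' → s' ∈ D n) (t : TT) : ∃ s, t ≤ s ∧ ∀ n, s ∈ D n := by
  classical
  obtain ⟨c, hc⟩ := exists_color D hD t
  have h : ∀ (n : ℕ) (s : TT) (β : KK), ∃ s', (∀ σ, ¬ Wins D c σ n s) →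
      s ≤ s' ∧ s' ∈ D n ∧ β < s'.m ∧ col s' = c n ∧ ∀ σ, ¬ Wins D c σ (n + 1) s' := by
    intro n s β
    by_contra hn
    push Not at hn
    have h0 := (hn s).1
    have : ∀ s', ∃ σ, s ≤ s' → s' ∈ D n → β < s'.m → col s' = c n → Wins D c σ (n + 1) s' := by
      intro s'
      by_cases k : s ≤ s' ∧ s' ∈ D n ∧ β < s'.m ∧ col s' = c n
      · obtain ⟨σ, hσ⟩ := (hn s').2 k.1 k.2.1 k.2.2.1 k.2.2.2
        exact ⟨σ, fun _ _ _ _ => hσ⟩
      · exact ⟨.leaf, fun a b c d => absurd ⟨a, b, c, d⟩ k⟩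
    choose f hf using this
    exact h0 (.node β f) hf
  choose mv hmv using h
  let pos : List KK → TT := fun l => List.rec t (fun β l p => mv l.length p β) l
  have hpos : ∀ l, ∀ σ, ¬ Wins D c σ l.length (pos l) := by
    intro l
    induction l with
    | nil => exact hc
    | cons β l ih => exact (hmv l.length (pos l) β ih).2.2.2.2
  have hg : ∀ γ : KK, ∃ b, ∀ l : List KK, (∀ x ∈ l, x < γ) → (pos l).m < b := by
    intro γ
    obtain ⟨b, hb⟩ := bddF (J := List (Iio γ))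
      ((Cardinal.mk_list_le_max _).trans (max_le inf_LL (card_Iio γ)))
      (fun l => (pos (l.map Subtype.val)).m)
    refine ⟨b, fun l hl => ?_⟩
    have := hb (l.pmap Subtype.mk hl)
    simpa [List.map_pmap] using this
  choose g hg using hg
  obtain ⟨δ, hok, ⟨a, ha1, ha2⟩, hcl⟩ := ok_big (⋃ n, c n) g
  let L : ℕ → List KK := fun n => Nat.rec [] (fun n l => a n :: l) n
  have hlen : ∀ n, (L n).length = n := by
    intro n
    induction n with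
    | zero => rfl
    | succ n ih => exact congrArg (· + 1) ih
  have hbd : ∀ n, ∃ γ < δ, ∀ x ∈ L n, x < γ := by
    intro n
    induction n with
    | zero => exact ⟨a 0, ha1 0, fun x hx => absurd hx List.not_mem_nil⟩
    | succ n ih =>
      obtain ⟨γ, h1, h2⟩ := ih
      obtain ⟨k, hk⟩ := ha2 _ (max_lt h1 (ha1 n))
      refine ⟨a k, ha1 k, fun x hx => ?_⟩
      rcases List.mem_cons.mp hx with rfl | hx
      · exact (le_max_right _ _).trans_lt hk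
      · exact (h2 x hx).trans ((le_max_left _ _).trans_lt hk)
  have hs : ∀ n, pos (L n) ≤ pos (L (n + 1)) ∧ pos (L (n + 1)) ∈ D n ∧
      a n < (pos (L (n + 1))).m ∧ col (pos (L (n + 1))) = c n := by
    intro n
    have := hmv (L n).length (pos (L n)) (a n) (hpos (L n))
    have e1 : D (L n).length = D n := by rw [hlen]
    have e2 : c (L n).length = c n := by rw [hlen]
    rw [e1, e2] at this
    exact ⟨this.1, this.2.1, this.2.2.1, this.2.2.2.1⟩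
  obtain ⟨s, hs'⟩ := exists_lim (fun n => pos (L (n + 1)))
    (monotone_nat_of_le_succ fun n => (hs (n + 1)).1) δ (fun n => by
      obtain ⟨γ, h1, h2⟩ := hbd (n + 1)
      exact (hg γ _ h2).trans (hcl γ h1)) (fun γ hγ => by
      obtain ⟨n, hn⟩ := ha2 γ hγ
      exact ⟨n, hn.trans (hs n).2.2.1⟩) (by
      simp only [fun n => (hs n).2.2.2]; exact hok)
  exact ⟨s, (hs 0).1.trans (hs' 0), fun n => hU n _ (hs n).2.1 s (hs' n)⟩

open Classical in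
noncomputable def emb (t : TT) : TT → Bool := fun u => decide (u ≤ t)

noncomputable instance : TopologicalSpace TT := TopologicalSpace.induced emb inferInstance

lemma t35 : T35Space TT := by
  have h : Topology.IsEmbedding emb := by
    refine ⟨⟨rfl⟩, fun a b h => le_antisymm ?_ ?_⟩
    · have := congrFun h a
      simpa [emb] using this
    · have := congrFun h b
      simpa [emb] using this
  exact h.t35Space

lemma open_cone (t : TT) : IsOpen (Ici t) := by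
  refine isOpen_induced_iff.mpr ⟨(fun f => f t) ⁻¹' {true},
    (isOpen_discrete _).preimage (continuous_apply t), ?_⟩
  ext s
  simp [emb]

lemma cone_sub (W : Set TT) (hW : IsOpen W) (t : TT) (ht : t ∈ W) :
    ∃ s, t ≤ s ∧ ¬ s ≤ t ∧ Ici s ⊆ W := by
  obtain ⟨V, hV, rfl⟩ := isOpen_induced_iff.mp hW
  obtain ⟨I, u, h1, h2⟩ := isOpen_pi_iff.mp hV _ ht
  obtain ⟨b, hb⟩ := bddK (TT.m '' (I : Set TT))
    ((I.finite_toSet.image _).lt_aleph0.le.trans inf_LL)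
  obtain ⟨c, hc⟩ := gtK (max b t.m)
  obtain ⟨s, h3, h4, h5⟩ := exists_ext' t c ((le_max_right _ _).trans_lt hc)
  refine ⟨s, h3, fun h => ?_, fun r hr => h2 fun i hi => ?_⟩
  · have := h.1
    rw [h4] at this
    exact absurd ((le_max_right _ _).trans_lt hc) (not_lt.mpr this)
  · have hi' : i.m < c := (hb _ ⟨i, hi, rfl⟩).trans ((le_max_left _ _).trans_lt hc)
    have : emb r i = emb t i := by
      simp only [emb, decide_eq_decide]
      refine ⟨fun h => ?_, fun h => h.trans (h3.trans hr)⟩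
      exact (h5 i (tree h hr (h4 ▸ hi'.le))).resolve_right hi'.ne
    rw [this]
    exact (h1 i hi).2

lemma not_dsep : ¬ LowerDSeparable TT := by
  rintro ⟨F, hF, hd⟩
  obtain ⟨s, _, hs⟩ := baire (fun n => {t | ∀ r, t ≤ r → r ∉ F n}) (by
    intro n t
    by_cases h : ∀ r, t ≤ r → r ∉ F n
    · exact ⟨t, le_rfl, h⟩
    · push Not at h
      obtain ⟨f, h1, h2⟩ := h
      have := hF n
      obtain ⟨W, hW, e⟩ := isOpen_induced_iff.mp (isOpen_discrete ({⟨f, h2⟩} : Set (F n)))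
      have hf : f ∈ W := by
        have : (⟨f, h2⟩ : F n) ∈ Subtype.val ⁻¹' W := by rw [e]; rfl
        exact this
      obtain ⟨s, h3, h4, h5⟩ := cone_sub W hW f hf
      refine ⟨s, h1.trans h3, fun r hr hrF => h4 ?_⟩
      have : (⟨r, hrF⟩ : F n) ∈ Subtype.val ⁻¹' W := h5 hr
      rw [e] at this
      have : r = f := congrArg Subtype.val this
      exact this ▸ hr) (fun n s hs s' h r hr => hs r (h.trans hr)) (Classical.arbitrary TT)
  obtain ⟨x, h1, h2⟩ := hd.inter_open_nonempty _ (open_cone s) ⟨s, le_refl s⟩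
  obtain ⟨n, hn⟩ := mem_iUnion.mp h2
  exact hs n x h1 hn

lemma maxfam (R : Set (TT × TT)) : ∃ B ⊆ R, (∀ p ∈ B, ∀ q ∈ B, ∀ x, p ≤ x → q ≤ x → p = q) ∧
    ∀ r ∈ R, ∃ b ∈ B, ∃ x, r ≤ x ∧ b ≤ x := by
  obtain ⟨B, hB⟩ := zorn_subset
    {B | B ⊆ R ∧ ∀ p ∈ B, ∀ q ∈ B, ∀ x, p ≤ x → q ≤ x → p = q} (by
      intro c hc hch
      refine ⟨⋃₀ c, ⟨sUnion_subset fun s hs => (hc hs).1, ?_⟩, fun s hs => subset_sUnion_of_mem hs⟩
      rintro p ⟨s, hs, hp⟩ q ⟨t, ht, hq⟩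
      rcases hch.total hs ht with h | h
      · exact (hc ht).2 p (h hp) q hq
      · exact (hc hs).2 p hp q (h hq))
  refine ⟨B, hB.1.1, hB.1.2, fun r hr => ?_⟩
  by_contra hn
  push Not at hn
  have h : insert r B ⊆ B := hB.2 (y := insert r B) ⟨insert_subset hr hB.1.1, by
    rintro p (rfl | hp) q (rfl | hq) x h1 h2
    · rfl
    · exact absurd h2 (hn q hq x h1)
    · exact absurd h1 (hn p hp x h2)
    · exact hB.1.2 p hp q hq x h1 h2⟩ (subset_insert _ _)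
  exact hn r (h (mem_insert _ _)) r le_rfl le_rfl

lemma ext_both (t : TT × TT) : ∃ s : TT × TT, t ≤ s ∧ s.1.m = s.2.m ∧ t.2.m < s.1.m ∧
    t.1.m < s.2.m := by
  obtain ⟨c, hc⟩ := gtK (max t.1.m t.2.m)
  have h1 := (le_max_left _ _).trans_lt hc
  have h2 := (le_max_right _ _).trans_lt hc
  obtain ⟨a, ha, ea, _⟩ := exists_ext' t.1 c h1
  obtain ⟨b, hb, eb, _⟩ := exists_ext' t.2 c h2
  exact ⟨(a, b), ⟨ha, hb⟩, ea.trans eb.symm, ea ▸ h2, eb ▸ h1⟩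

lemma pibase : ∃ B : ℕ → Set (TT × TT),
    (∀ n, ∀ p ∈ B n, ∀ q ∈ B n, ∀ x, p ≤ x → q ≤ x → p = q) ∧ ∀ t, ∃ n, ∃ b ∈ B n, t ≤ b := by
  choose M h1 h2 h3 using maxfam
  let B : ℕ → Set (TT × TT) := fun n => Nat.rec (M {p | Inc p.1 p.2})
    (fun _ B => M {p | ∃ w ∈ B, w ≤ p ∧ w.2.m < p.1.m ∧ w.1.m < p.2.m}) n
  have hd : ∀ n, ∀ p ∈ B n, ∀ q ∈ B n, ∀ x, p ≤ x → q ≤ x → p = q := by
    intro n
    cases n with
    | zero => exact h2 _
    | succ n => exact h2 _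
  have hp : ∀ n, ∀ p ∈ B (n + 1), ∃ w ∈ B n, w ≤ p ∧ w.2.m < p.1.m ∧ w.1.m < p.2.m :=
    fun n p hp => h1 _ hp
  have hden : ∀ n t, ∃ b ∈ B n, ∃ x, t ≤ x ∧ b ≤ x := by
    intro n
    induction n with
    | zero =>
      intro t
      obtain ⟨s, s', a1, a2, a3⟩ := exists_inc t.1 t.2
      obtain ⟨b, hb, x, a4, a5⟩ := h3 {p | Inc p.1 p.2} (s, s') a3
      exact ⟨b, hb, x, le_trans (show t ≤ (s, s') from ⟨a1, a2⟩) a4, a5⟩
    | succ n ih =>
      intro t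
      obtain ⟨b, hb, x, a1, a2⟩ := ih t
      obtain ⟨s, a3, _, a4, a5⟩ := ext_both x
      obtain ⟨b', hb', y, a6, a7⟩ := h3 {p | ∃ w ∈ B n, w ≤ p ∧ w.2.m < p.1.m ∧ w.1.m < p.2.m} s
        ⟨b, hb, a2.trans a3, a2.2.1.trans_lt a4, a2.1.1.trans_lt a5⟩
      exact ⟨b', hb', y, a1.trans (a3.trans a6), a7⟩
  refine ⟨B, hd, fun t0 => ?_⟩
  obtain ⟨t, ht, he, _⟩ := ext_both t0
  obtain ⟨n, hn⟩ : ∃ n, ∀ b ∈ B n, ¬ b ≤ t := by
    by_contra hc
    push Not at hc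
    choose b hb1 hb2 using hc
    have : ∀ n, (b n).2.m < (b (n + 1)).1.m ∧ (b n).1.m < (b (n + 1)).2.m := by
      intro n
      obtain ⟨w, a1, a2, a3⟩ := hp n _ (hb1 (n + 1))
      rw [hd n _ (hb1 n) w a1 t (hb2 n) (a2.trans (hb2 _))]
      exact a3
    exact no_alt (fun n => (b n).1) (fun n => (b n).2) t.1 t.2 (fun n => (hb2 n).1)
      (fun n => (hb2 n).2) (fun n => (this n).1) (fun n => (this n).2) (h1 _ (hb1 0))
  obtain ⟨b, hb, x, a1, a2⟩ := hden (n + 1) t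
  obtain ⟨w, hw, a3, a4, a5⟩ := hp n b hb
  refine ⟨n + 1, b, hb, ht.trans ?_⟩
  have a6 := a3.trans a2
  by_cases k : w.1.m ≤ t.1.m
  · have k2 : t.2.m < w.2.m := by
      by_contra k2
      exact hn w hw ⟨tree a6.1 a1.1 k, tree a6.2 a1.2 (not_lt.mp k2)⟩
    exact ⟨tree a1.1 a2.1 (he.le.trans (k2.trans a4).le), tree a1.2 a2.2 (k2.le.trans a3.2.1)⟩
  · have k1 := not_le.mp k
    exact ⟨tree a1.1 a2.1 (k1.le.trans a3.1.1), tree a1.2 a2.2 (he.ge.trans (k1.trans a5).le)⟩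

lemma open_box (b : TT × TT) : IsOpen (Ici b) := by
  exact (open_cone b.1).prod (open_cone b.2)

lemma sq_dsep : DSeparable (TT × TT) := by
  intro D hD
  obtain ⟨B, h1, h2⟩ := pibase
  have h : ∀ n b, ∃ x, b ≤ x ∧ x ∈ D n := fun n b =>
    (hD n).inter_open_nonempty _ (open_box b) ⟨b, le_refl b⟩
  choose d hd1 hd2 using h
  refine ⟨fun n => d n '' B n, fun n => ⟨?_, ?_⟩, ?_⟩
  · rintro _ ⟨b, _, rfl⟩
    exact hd2 n b
  · refine discreteTopology_iff_isOpen_singleton.mpr ?_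
    rintro ⟨_, b, hb, rfl⟩
    refine isOpen_induced_iff.mpr ⟨Ici b, open_box b, ?_⟩
    ext ⟨_, b', hb', rfl⟩
    simp only [mem_preimage, mem_Ici, mem_singleton_iff, Subtype.mk.injEq]
    exact ⟨fun h => by rw [h1 n b hb b' hb' _ h (hd1 n b')], fun h => h ▸ hd1 n b⟩
  · rw [dense_iff_inter_open]
    rintro U hU ⟨⟨x, y⟩, hxy⟩
    obtain ⟨u, v, hu, hv, hx, hy, huv⟩ := isOpen_prod_iff.mp hU x y hxy
    obtain ⟨s, _, _, hs⟩ := cone_sub u hu x hx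
    obtain ⟨s', _, _, hs'⟩ := cone_sub v hv y hy
    obtain ⟨n, b, hb, h⟩ := h2 (s, s')
    have := h.trans (hd1 n b)
    exact ⟨d n b, huv ⟨hs this.1, hs' this.2⟩, mem_iUnion.mpr ⟨n, b, hb, rfl⟩⟩

theorem result : ∃ (X : Type) (_ : TopologicalSpace X),
    T35Space X ∧ ¬ LowerDSeparable X ∧ ¬ DSeparable X ∧ DSeparable (X × X) := by
  refine ⟨TT, inferInstance, t35, not_dsep, fun h => not_dsep ?_, sq_dsep⟩
  obtain ⟨F, h1, h2⟩ := h (fun _ => Set.univ) (fun _ => dense_univ)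
  exact ⟨F, fun n => (h1 n).2, h2⟩

end Pool.Agent.Results.MP_4cef1b_gt.Square
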